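import Mathlib
import Pool.Agent.H.MP_99e7cc_gt.C
import Pool.Agent.H.MP_937656_gt.F

namespace Pool.Agent.Results.MP_1453e0_an.NotEquiv

open MeasureTheory Set Metric Finset
open Pool.Agent.H.MP_99e7cc_gt Pool.Agent.H.MP_937656_gt
open scoped RealInnerProductSpace Pointwise ENNReal

/-- Euclidean space. -/
abbrev E (n : ℕ) := EuclideanSpace ℝ (Fin n)

/-- Symmetric convex body. -/
def SymBody {n : ℕ} (K : Set (E n)) : Prop :=
  IsCompact K ∧ Convex ℝ K ∧ (interior K).Nonempty ∧ K = -K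

/-- The normalized rotation invariant measure on the sphere. -/
noncomputable def sig (n : ℕ) : Measure (sphere (0 : E n) 1) :=
  ((volume : Measure (E n)).toSphere univ)⁻¹ • (volume : Measure (E n)).toSphere

/-- Mean of the norm with unit ball `K`. -/
noncomputable def M {n : ℕ} (K : Set (E n)) : ℝ := ∫ u, gauge K (u : E n) ∂sig n

/-- Mean of the support function of `K`. -/
noncomputable def Ms {n : ℕ} (K : Set (E n)) : ℝ :=
  ∫ u, sSup ((fun y => ⟪(u : E n), y⟫) '' K) ∂sig n

/-- The position independent product. -/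
noncomputable def MM {n : ℕ} (K : Set (E n)) : ℝ :=
  ⨅ T : E n ≃ₗ[ℝ] E n, M (T '' K) * Ms (T '' K)

/-- The sign attached to a Boolean. -/
def sgn (b : Bool) : ℝ := if b then 1 else -1

/-- The norm of `L_2({-1,1}^m; X_K)`. -/
noncomputable def nrm {n m : ℕ} (K : Set (E n)) (f : (Fin m → Bool) → E n) : ℝ :=
  √((∑ e, gauge K (f e) ^ 2) / 2 ^ m)

/-- The Rademacher projection. -/
noncomputable def rad {n m : ℕ} (f : (Fin m → Bool) → E n) : (Fin m → Bool) → E n :=
  fun e => ∑ i, sgn (e i) • ((2 ^ m : ℝ)⁻¹ • ∑ d, sgn (d i) • f d)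

/-- The K-convexity constant of `X_K`. -/
noncomputable def KC {n : ℕ} (K : Set (E n)) : ℝ≥0∞ :=
  ⨆ (m : ℕ) (f : (Fin m → Bool) → E n), ENNReal.ofReal (nrm K (rad f) / nrm K f)

theorem gauge_eq {n : ℕ} (p : E n → ℝ) (h0 : ∀ x, 0 ≤ p x)
    (hp : ∀ (t : ℝ) x, 0 ≤ t → p (t • x) = t * p x) (x : E n) : gauge {y | p y ≤ 1} x = p x := by
  have key : ∀ r : ℝ, 0 < r → (x ∈ r • {y | p y ≤ 1} ↔ p x ≤ r) := fun r hr => by
    rw [mem_smul_set_iff_inv_smul_mem₀ hr.ne', mem_ofPred_eq, hp _ _ (inv_pos.2 hr).le,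
      inv_mul_le_iff₀ hr, mul_one]
  refine le_antisymm (le_of_forall_pos_le_add fun ε hε => gauge_le_of_mem (by linarith [h0 x])
    ((key _ (by linarith [h0 x])).2 (by linarith))) ?_
  exact le_csInf ⟨p x + 1, by linarith [h0 x], (key _ (by linarith [h0 x])).2 (by linarith)⟩
    fun r hr => (key r hr.1).1 hr.2

theorem sph_sq {n : ℕ} (i j : Fin n) :
    ∫ u : sphere (0 : E n) 1, u.1 i ^ 2 ∂(volume : Measure (E n)).toSphere =
      ∫ u : sphere (0 : E n) 1, u.1 j ^ 2 ∂(volume : Measure (E n)).toSphere := by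
  have : Nonempty (Fin n) := ⟨i⟩
  have I : ∀ i, Integrable ((ball (0 : E n) 1).indicator fun x : E n => x i ^ 2) := fun i =>
    (integrable_indicator_iff measurableSet_ball).2
      (((by fun_prop : Continuous fun x : E n => x i ^ 2).continuousOn.integrableOn_compact
        (isCompact_closedBall 0 1)).mono_set ball_subset_closedBall)
  have c : ∫ r in Ioi (0 : ℝ), (Iio (1 : ℝ)).indicator (fun r => r ^ (n + 1)) r =
      1 / (n + 2) := by
    rw [setIntegral_indicator measurableSet_Iio, Ioi_inter_Iio, ← integral_Ioc_eq_integral_Ioo,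
      ← intervalIntegral.integral_of_le zero_le_one, integral_pow]
    push_cast; norm_num; ring
  have P : ∀ i, ∫ x, (ball (0 : E n) 1).indicator (fun x : E n => x i ^ 2) x =
      (∫ u : sphere (0 : E n) 1, u.1 i ^ 2 ∂(volume : Measure (E n)).toSphere) * (1 / (n + 2)) := by
    intro i
    rw [polar volume (I i), ← integral_mul_const]
    congr 1; funext u
    rw [← c, ← integral_const_mul]
    refine setIntegral_congr_fun measurableSet_Ioi fun r hr => ?_
    have r0 : 0 < r := hr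
    obtain ⟨k, rfl⟩ : ∃ k, n = k + 1 := ⟨n - 1, by have := i.pos; omega⟩
    by_cases h : r < 1
    · rw [indicator_of_mem (by simpa [norm_smul, abs_of_pos r0] using h),
        indicator_of_mem (Set.mem_Iio.2 h)]
      simp; ring
    · rw [indicator_of_notMem (by simpa [norm_smul, abs_of_pos r0] using h),
        indicator_of_notMem (by simpa using h)]
      simp
  let T := LinearIsometryEquiv.piLpCongrLeft 2 ℝ ℝ (Equiv.swap i j)
  have := T.measurePreserving.integral_comp T.toHomeomorph.measurableEmbedding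
    ((ball (0 : E n) 1).indicator fun x : E n => x i ^ 2)
  have e : ∀ x : E n, (ball (0 : E n) 1).indicator (fun x : E n => x i ^ 2) (T x) =
      (ball (0 : E n) 1).indicator (fun x : E n => x j ^ 2) x := by
    intro x
    by_cases h : x ∈ ball (0 : E n) 1
    · rw [indicator_of_mem h, indicator_of_mem (by simpa using h)]
      simp [T]
    · rw [indicator_of_notMem h, indicator_of_notMem (by simpa using h)]
  simp only [e, P] at this
  exact (mul_right_cancel₀ (by positivity) this).symm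

instance (n : ℕ) [NeZero n] : IsProbabilityMeasure (sig n) := by
  refine ⟨?_⟩
  rw [sig, Measure.smul_apply, smul_eq_mul, ENNReal.inv_mul_cancel _ (measure_ne_top _ _)]
  simp [NeZero.ne n, (measure_ball_pos volume (0 : E n) one_pos).ne']

theorem sig_sq {n : ℕ} [NeZero n] (i : Fin n) : ∫ u, u.1 i ^ 2 ∂sig n = 1 / n := by
  have I : ∀ j, Integrable (fun u : sphere (0 : E n) 1 => u.1 j ^ 2) (sig n) := fun j =>
    (by fun_prop : Continuous fun u : sphere (0 : E n) 1 => u.1 j ^ 2).integrable_of_hasCompactSupport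
      (HasCompactSupport.of_compactSpace _)
  have h1 : ∀ j, ∫ u, u.1 j ^ 2 ∂sig n = ∫ u, u.1 i ^ 2 ∂sig n := fun j => by
    simp only [sig, integral_smul_measure, sph_sq j i]
  have h2 := integral_finsetSum Finset.univ fun j _ => I j
  simp only [← EuclideanSpace.real_norm_sq_eq, norm_eq_of_mem_sphere, h1] at h2
  have : (n : ℝ) ≠ 0 := NeZero.ne _
  simp only [one_pow, integral_const, probReal_univ, smul_eq_mul, mul_one, sum_const, card_univ,
    Fintype.card_fin, nsmul_eq_mul] at h2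
  field_simp
  linarith

theorem cb_low (m : ℕ) : (16 : ℝ) ^ (m + 1) ≤ (Nat.centralBinom (m + 1) : ℝ) ^ 2 * (4 * (m + 1)) := by
  induction m with
  | zero => norm_num [Nat.centralBinom]
  | succ m ih =>
    have h1 : ((m : ℝ) + 1 + 1) * Nat.centralBinom (m + 1 + 1) =
        2 * (2 * (m + 1) + 1) * Nat.centralBinom (m + 1) := by
      exact_mod_cast Nat.succ_mul_centralBinom_succ (m + 1)
    have m0 : (0 : ℝ) ≤ m := Nat.cast_nonneg m
    refine le_of_mul_le_mul_left ?_ (show (0 : ℝ) < m + 1 + 1 by positivity)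
    push_cast
    have h2 : ((m : ℝ) + 1 + 1) * ((Nat.centralBinom (m + 1 + 1) : ℝ) ^ 2 * (4 * (m + 1 + 1))) =
        16 * (2 * (m + 1) + 1) ^ 2 * (Nat.centralBinom (m + 1) : ℝ) ^ 2 := by
      have : (((m : ℝ) + 1 + 1) * Nat.centralBinom (m + 1 + 1)) ^ 2 =
        (2 * (2 * (m + 1) + 1) * Nat.centralBinom (m + 1)) ^ 2 := by rw [h1]
      linear_combination 4 * this
    rw [h2, pow_succ]
    nlinarith [sq_nonneg (Nat.centralBinom (m + 1) : ℝ)]

theorem abs_low (r : ℕ) (τ : Fin (2 * r + 1 + 1) → Bool) : √(r + 1) ≤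
    (2 ^ (2 * r + 1 + 1) : ℝ)⁻¹ * ∑ e : Fin (2 * r + 1 + 1) → Bool, |∑ i, sg (τ i) * sg (e i)| := by
  have h2 : Nat.centralBinom (r + 1) = 2 * (2 * r + 1).choose (r + 1) := by
    rw [Nat.centralBinom, show 2 * (r + 1) = 2 * r + 1 + 1 by ring, Nat.choose_succ_succ',
      ← Nat.choose_symm_half r]
    ring
  have h1 := cb_low r
  rw [h2, show (16 : ℝ) ^ (r + 1) = (2 ^ (2 * r + 1 + 1)) ^ 2 by
    rw [← pow_mul, show (16 : ℝ) = 2 ^ 4 by norm_num, ← pow_mul]; congr 1; ring] at h1
  push_cast at h1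
  rw [abs_sum, Real.sqrt_le_left (by positivity), mul_pow, inv_pow, le_inv_mul_iff₀ (by positivity)]
  have m0 : (0 : ℝ) ≤ r + 1 := by positivity
  nlinarith [mul_le_mul_of_nonneg_left h1 m0]

theorem result : ∀ C : ℝ, 0 < C → ∃ (n : ℕ) (K : Set (E n)), SymBody K ∧ MM K ≤ 2 ∧
    ENNReal.ofReal (C * MM K) < KC K := by
  intro C hC
  obtain ⟨r, hr⟩ := exists_nat_gt ((2 * C) ^ 2)
  set m := 2 * r + 1 + 1 with hm
  have : NeZero (2 ^ m * 2 ^ m) := ⟨by positivity⟩
  obtain ⟨ι⟩ : Nonempty ((Fin m → Bool) ↪ Fin (2 ^ m * 2 ^ m)) :=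
    Function.Embedding.nonempty_of_card_le (by simp [Nat.one_le_two_pow])
  let p : E (2 ^ m * 2 ^ m) → ℝ := fun x => max ‖x‖ (∑ t, |x (ι t)|)
  have p0 : ∀ x, 0 ≤ p x := fun x => le_max_of_le_left (norm_nonneg _)
  have ph : ∀ (t : ℝ) x, 0 ≤ t → p (t • x) = t * p x := fun t x ht => by
    simp only [p, norm_smul, PiLp.smul_apply, smul_eq_mul, abs_mul, Real.norm_eq_abs,
      abs_of_nonneg ht, ← mul_sum, mul_max_of_nonneg _ _ ht]
  have pc : Continuous p := by fun_prop
  have g := gauge_eq p p0 ph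
  have sub : {y | p y ≤ 1} ⊆ closedBall 0 1 := fun y hy =>
    mem_closedBall_zero_iff.2 ((le_max_left _ _).trans hy)
  have hMM : MM {y | p y ≤ 1} ≤ 2 := by
    refine (ciInf_le ⟨0, ?_⟩ (LinearEquiv.refl ℝ _)).trans ?_
    · rintro _ ⟨T, rfl⟩
      refine mul_nonneg (integral_nonneg fun u => gauge_nonneg _)
        (integral_nonneg fun u => Real.sSup_nonneg' ⟨0, ⟨0, ⟨0, ?_, map_zero _⟩, by simp⟩, le_rfl⟩)
      simp [p]
    simp only [LinearEquiv.refl_apply, Set.image_id']
    have I : ∀ F : sphere (0 : E (2 ^ m * 2 ^ m)) 1 → ℝ, Continuous F → Integrable F (sig _) :=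
      fun F hF => hF.integrable_of_hasCompactSupport (HasCompactSupport.of_compactSpace _)
    have k0 : (0 : ℝ) < 2 ^ m := by positivity
    have h1 : M {y | p y ≤ 1} ≤ 2 := by
      simp only [M, g]
      refine (integral_mono (g := fun u => 3 / 2 + 2 ^ m / 2 * ∑ t, u.1 (ι t) ^ 2)
        (I _ (pc.comp continuous_subtype_val)) (I _ (by fun_prop)) fun u => max_le ?_ ?_).trans ?_
      · have : 0 ≤ (2 : ℝ) ^ m / 2 * ∑ t, u.1 (ι t) ^ 2 := by positivity
        rw [norm_eq_of_mem_sphere]; linarith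
      · have : ∀ a : ℝ, |a| ≤ 1 / (2 * 2 ^ m) + 2 ^ m / 2 * a ^ 2 := fun a => by
          have h := div_nonneg (sq_nonneg (2 ^ m * |a| - 1)) (show (0 : ℝ) ≤ 2 * 2 ^ m by positivity)
          have e : (2 ^ m * |a| - 1) ^ 2 / (2 * 2 ^ m) =
            1 / (2 * 2 ^ m) + 2 ^ m / 2 * |a| ^ 2 - |a| := by field_simp; ring
          rw [e, sq_abs] at h; linarith
        refine (sum_le_sum fun t _ => this _).trans ?_
        rw [sum_add_distrib, ← mul_sum]
        simp only [sum_const, card_univ, Fintype.card_pi, Fintype.card_bool, prod_const,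
          Fintype.card_fin, nsmul_eq_mul, Nat.cast_pow, Nat.cast_ofNat]
        have : (2 : ℝ) ^ m * (1 / (2 * 2 ^ m)) = 1 / 2 := by field_simp
        linarith
      · rw [integral_add (integrable_const _) (I _ (by fun_prop)), integral_const_mul,
          integral_finsetSum _ fun t _ => I _ (by fun_prop)]
        simp only [sig_sq, integral_const, probReal_univ, smul_eq_mul, one_mul, sum_const,
          card_univ, Fintype.card_pi, Fintype.card_bool, prod_const, Fintype.card_fin,
          nsmul_eq_mul, Nat.cast_pow, Nat.cast_ofNat, Nat.cast_mul]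
        refine le_of_eq ?_
        field_simp; norm_num
    have h2 : Ms {y | p y ≤ 1} ≤ 1 := by
      have := integral_mono_of_nonneg (μ := sig (2 ^ m * 2 ^ m))
        (f := fun u => sSup ((fun y => ⟪(u : E _), y⟫) '' {y | p y ≤ 1})) (g := fun _ => 1)
        (ae_of_all _ fun u => Real.sSup_nonneg' ⟨0, ⟨0, by simp [p], by simp⟩, le_rfl⟩)
        (integrable_const _) (ae_of_all _ fun u => Real.sSup_le ?_ zero_le_one)
      · simpa [Ms] using this
      · rintro _ ⟨y, hy, rfl⟩
        refine (real_inner_le_norm _ _).trans ?_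
        rw [norm_eq_of_mem_sphere, one_mul]
        exact mem_closedBall_zero_iff.1 (sub hy)
    have h3 : 0 ≤ M {y | p y ≤ 1} := integral_nonneg fun u => gauge_nonneg _
    nlinarith
  refine ⟨_, {y | p y ≤ 1}, ⟨(isCompact_closedBall 0 1).of_isClosed_subset
    (isClosed_le pc continuous_const) sub, ?_, ⟨0, ?_⟩, ?_⟩, hMM, ?_⟩
  · intro x hx y hy a b ha hb hab
    have hx' := max_le_iff.1 (show max ‖x‖ (∑ t, |x (ι t)|) ≤ 1 from hx)
    have hy' := max_le_iff.1 (show max ‖y‖ (∑ t, |y (ι t)|) ≤ 1 from hy)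
    refine max_le ((norm_add_le _ _).trans ?_) ((sum_le_sum fun t _ =>
      (?_ : _ ≤ a * |x (ι t)| + b * |y (ι t)|)).trans ?_)
    · rw [norm_smul, norm_smul, Real.norm_of_nonneg ha, Real.norm_of_nonneg hb]
      nlinarith [hx'.1, hy'.1]
    · refine (abs_add_le _ _).trans_eq ?_
      simp [abs_mul, abs_of_nonneg ha, abs_of_nonneg hb]
    · rw [sum_add_distrib, ← mul_sum, ← mul_sum]
      nlinarith [hx'.2, hy'.2]
  · refine mem_interior_iff_mem_nhds.2 (Filter.mem_of_superset
      ((isOpen_lt pc continuous_const).mem_nhds (show p 0 < 1 by simp [p])) 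
      fun y hy => show p y ≤ 1 from le_of_lt hy)
  · ext y; simp [p]
  · let f : (Fin m → Bool) → E (2 ^ m * 2 ^ m) := fun e => EuclideanSpace.single (ι e) 1
    refine lt_of_lt_of_le ?_ (le_iSup₂_of_le (f := fun (m' : ℕ) (f : (Fin m' → Bool) → E _) =>
      ENNReal.ofReal (nrm {y | p y ≤ 1} (rad f) / nrm {y | p y ≤ 1} f)) m f le_rfl)
    have n1 : nrm {y | p y ≤ 1} f = 1 := by
      have : ∀ e, p (f e) = 1 := fun e => by simp [p, f, apply_ite abs]
      simp [nrm, g, this]
    have n2 : √(r + 1) ≤ nrm {y | p y ≤ 1} (rad f) := by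
      have : ∀ e, √(r + 1) ≤ p (rad f e) := fun e => by
        refine (abs_low r e).trans (le_max_of_le_right (le_of_eq ?_))
        rw [mul_sum]
        refine sum_congr rfl fun t _ => ?_
        have : rad f e (ι t) = (2 ^ m : ℝ)⁻¹ * ∑ i, sg (e i) * sg (t i) := by
          have : ∀ b, sgn b = sg b := fun _ => rfl
          simp [rad, f, Pi.single_apply, mul_sum, this, mul_left_comm]
        rw [this, abs_mul, abs_of_pos (a := (2 ^ m : ℝ)⁻¹) (by positivity)]
      refine Real.sqrt_le_sqrt ?_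
      rw [le_div_iff₀ (by positivity)]
      refine le_trans (le_of_eq ?_) (sum_le_sum fun e _ => (?_ : (r : ℝ) + 1 ≤ _))
      · simp; ring
      · rw [g, ← Real.sqrt_le_left (p0 _)]; exact this e
    have n3 : 2 * C < √(r + 1) := Real.lt_sqrt_of_sq_lt (by linarith)
    rw [n1, div_one, ENNReal.ofReal_lt_ofReal_iff (by linarith)]
    nlinarith

end Pool.Agent.Results.MP_1453e0_an.NotEquiv
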